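import Pool.Agent.H754Z.TA.Str

set_option autoImplicit false

namespace Pool.Agent.H754Z.TA

open MeasureTheory Filter Topology Pointwise

universe u v

namespace P1

variable {G : Type u} [Group G] [TopologicalSpace G] [IsTopologicalGroup G]

theorem exists_psi [MeasurableSpace G] [BorelSpace G] (U : Set G) (hUo : IsOpen U)
    (N : G → ℝ) (hN : IsLen N) (hNU : ∀ x, N x < 1 → x ∈ U) :
    ∃ ψ : G → ℝ, Measurable ψ ∧ (∀ x, 0 ≤ ψ x) ∧ (∀ x, ψ x ≤ 1) ∧ (∀ x ∈ U, ψ x = 1) ∧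
      (∀ x, ψ x ≠ 0 → x ∈ U * U) ∧ ∀ h x, |ψ x - ψ (h⁻¹ * x)| ≤ N h := by
  let S : G → Set ℝ := fun x => {t | t = 0 ∨ ∃ a, a⁻¹ * x ∈ U ∧ t = 1 - N a}
  have hne : ∀ x, (S x).Nonempty := fun x => ⟨0, Or.inl rfl⟩
  have hub : ∀ x, ∀ t ∈ S x, t ≤ 1 := by
    rintro x t (rfl | ⟨a, -, rfl⟩)
    · exact zero_le_one
    · linarith [hN.nonneg a]
  have hbdd : ∀ x, BddAbove (S x) := fun x => ⟨1, hub x⟩
  have h0 : ∀ x, 0 ≤ sSup (S x) := fun x => le_csSup (hbdd x) (Or.inl rfl)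
  have h1 : ∀ x, sSup (S x) ≤ 1 := fun x => csSup_le (hne x) (hub x)
  have hge : ∀ x a, a⁻¹ * x ∈ U → 1 - N a ≤ sSup (S x) := fun x a ha =>
    le_csSup (hbdd x) (Or.inr ⟨a, ha, rfl⟩)
  have hlip : ∀ h x, sSup (S (h⁻¹ * x)) ≤ sSup (S x) + N h := by
    intro h x
    refine csSup_le (hne _) ?_
    rintro t (rfl | ⟨a, ha, rfl⟩)
    · linarith [h0 x, hN.nonneg h]
    · have := hge x (h * a) (by rw [mul_inv_rev, mul_assoc]; exact ha)
      linarith [hN.mul h a]
  refine ⟨fun x => sSup (S x), ?_, h0, h1, ?_, ?_, ?_⟩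
  · refine LowerSemicontinuous.measurable ?_
    intro x c hc
    obtain ⟨t, ht, hct⟩ := exists_lt_of_lt_csSup (hne x) hc
    rcases ht with rfl | ⟨a, ha, rfl⟩
    · exact Eventually.of_forall fun y => lt_of_lt_of_le hct (h0 y)
    · have : ∀ᶠ y in 𝓝 x, a⁻¹ * y ∈ U :=
        (continuous_const.mul continuous_id).continuousAt.eventually (hUo.mem_nhds ha)
      exact this.mono fun y hy => lt_of_lt_of_le hct (hge y a hy)
  · intro x hx
    refine le_antisymm (h1 x) ?_
    have := hge x 1 (by simpa using hx)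
    simpa [hN.one] using this
  · intro x hx
    have hpos : 0 < sSup (S x) := lt_of_le_of_ne (h0 x) (Ne.symm hx)
    obtain ⟨t, ht, hct⟩ := exists_lt_of_lt_csSup (hne x) hpos
    rcases ht with rfl | ⟨a, ha, rfl⟩
    · exact absurd hct (lt_irrefl _)
    · exact ⟨a, hNU a (by linarith), a⁻¹ * x, ha, by simp⟩
  · intro h x
    have h2 := hlip h x
    have h3 := hlip h⁻¹ (h⁻¹ * x)
    rw [inv_inv, mul_inv_cancel_left, hN.inv] at h3
    rw [abs_le]
    constructor <;> linarith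

theorem unif (θ : G → ℝ) (hc : Continuous θ) (hs : HasCompactSupport θ) (ε : ℝ) (hε : 0 < ε) :
    ∀ᶠ k in 𝓝 (1 : G), ∀ z, |θ z - θ (z * k)| ≤ ε := by
  have key : ∀ᶠ k in 𝓝 (1 : G), ∀ z ∈ tsupport θ, |θ z - θ (z * k)| ≤ ε := by
    refine IsCompact.eventually_forall_of_forall_eventually hs.isCompact ?_
    intro y _
    have hcont : Continuous fun p : G × G => |θ p.2 - θ (p.2 * p.1)| := by fun_prop
    have := hcont.continuousAt (x := (1, y))
    refine (this.eventually (Iic_mem_nhds (a := ε) ?_)).mono fun p hp => hp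
    simpa using hε
  have key' : ∀ᶠ k in 𝓝 (1 : G), ∀ z ∈ tsupport θ, |θ z - θ (z * k⁻¹)| ≤ ε := by
    have : Tendsto (fun k : G => k⁻¹) (𝓝 1) (𝓝 1) := by
      simpa using (continuous_inv.tendsto (1 : G))
    exact this.eventually key
  filter_upwards [key, key'] with k h1 h2 z
  by_cases hz : z ∈ tsupport θ
  · exact h1 z hz
  by_cases hzk : z * k ∈ tsupport θ
  · have := h2 _ hzk
    rw [mul_inv_cancel_right] at this
    rwa [abs_sub_comm]
  · rw [image_eq_zero_of_notMem_tsupport hz, image_eq_zero_of_notMem_tsupport hzk]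
    simpa using hε.le

theorem conj_ev (L : Set G) (hL : IsCompact L) (P : G → Prop) (hP : ∀ᶠ k in 𝓝 (1 : G), P k) :
    ∀ᶠ g in 𝓝 (1 : G), ∀ y ∈ L, P (y⁻¹ * g * y) := by
  refine IsCompact.eventually_forall_of_forall_eventually hL ?_
  intro y _
  have hcont : Continuous fun p : G × G => p.2⁻¹ * p.1 * p.2 := by fun_prop
  have := hcont.tendsto (1, y)
  simp only [mul_one, inv_mul_cancel] at this
  exact this.eventually hP

theorem exists_theta [LocallyCompactSpace G] [T2Space G] [MeasurableSpace G] [BorelSpace G]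
    (μ : Measure G) [μ.IsHaarMeasure] (U : Set G) (hUo : IsOpen U) (hU1 : (1 : G) ∈ U) :
    ∃ θ : G → ℝ, Continuous θ ∧ HasCompactSupport θ ∧ (∀ x, 0 ≤ θ x) ∧
      (∀ x, θ x ≠ 0 → x ∈ U) ∧ ∫ x, θ x ∂μ = 1 := by
  obtain ⟨f, hf1, hf0, hfs, hf01⟩ := exists_continuous_one_zero_of_isCompact
    (isCompact_singleton (x := (1 : G))) hUo.isClosed_compl
    (by simpa using hU1)
  have hpos : 0 < ∫ x, f x ∂μ := by
    refine f.continuous.integral_pos_of_hasCompactSupport_nonneg_nonzero hfs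
      (fun x => (hf01 x).1) (x := 1) ?_
    rw [hf1 rfl]; simp
  refine ⟨fun x => (∫ x, f x ∂μ)⁻¹ * f x, continuous_const.mul f.continuous,
    hfs.mul_left, fun x => mul_nonneg (inv_nonneg.2 hpos.le) (hf01 x).1, ?_, ?_⟩
  · intro x hx
    by_contra hxU
    exact hx (by simp [hf0 hxU])
  · rw [integral_const_mul, inv_mul_cancel₀ hpos.ne']

end P1

theorem engine {G : Type u} [Group G] [TopologicalSpace G] [IsTopologicalGroup G]
    [LocallyCompactSpace G] [T2Space G] (U : Set G) (hUo : IsOpen U) (hU1 : (1 : G) ∈ U)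
    (hUs : ∀ x ∈ U, x⁻¹ ∈ U) (hUc : IsCompact (closure U)) (ε : ℝ) (hε : 0 < ε) :
    ∃ V ∈ 𝓝 (1 : G), ∀ N : G → ℝ, IsLen N → (∀ x, N x < 1 → x ∈ U) →
      ∃ N' : G → ℝ, IsLen N' ∧ (∀ x, N' x < 1 → x ∈ U * U * U) ∧
        ∀ (h : G) (n : ℕ), 0 < n → (∀ i ≤ n, h ^ i ∈ V) → N' h ≤ 1 / n + ε * N h := by
  borelize G
  let μ : Measure G := Measure.haar
  obtain ⟨θ, hθc, hθs, hθ0, hθU, hθ1⟩ := P1.exists_theta μ U hUo hU1
  let L : Set G := closure U * closure U * closure U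
  have hL : IsCompact L := (hUc.mul hUc).mul hUc
  have hUL : U * U * U ⊆ L :=
    Set.mul_subset_mul (Set.mul_subset_mul subset_closure subset_closure) subset_closure
  have hμL : 0 ≤ μ.real L := measureReal_nonneg
  set ε' : ℝ := ε / (μ.real L + 1) with hε'
  have hε'pos : 0 < ε' := by positivity
  have hε'le : ε' * μ.real L ≤ ε := by
    rw [hε', div_mul_eq_mul_div, div_le_iff₀ (by positivity)]
    nlinarith
  have hV := P1.conj_ev L hL _ (P1.unif θ hθc hθs ε' hε'pos)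
  refine ⟨U ∩ {g | ∀ y ∈ L, ∀ z, |θ z - θ (z * (y⁻¹ * g * y))| ≤ ε'},
    inter_mem (hUo.mem_nhds hU1) hV, ?_⟩
  intro N hN hNU
  obtain ⟨ψ, hψm, hψ0, hψ1, hψU, hψs, hψl⟩ := P1.exists_psi U hUo N hN hNU
  have hθi : Integrable θ μ := hθc.integrable_of_hasCompactSupport hθs
  have hint : ∀ a b : G, Integrable (fun w => ψ (a * w) * θ (b * w)) μ := by
    intro a b
    refine Integrable.bdd_mul (c := 1) (hθi.comp_mul_left b)
      (hψm.comp (measurable_const_mul a)).aestronglyMeasurable (Eventually.of_forall fun w => ?_)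
    rw [Real.norm_eq_abs, abs_of_nonneg (hψ0 _)]
    exact hψ1 _
  have hint' : ∀ a : G, Integrable (fun w => ψ (a * w) * θ w) μ := by
    intro a
    simpa using hint a 1
  let φ : G → ℝ := fun x => ∫ w, ψ (x * w) * θ w ∂μ
  have hφ0 : ∀ x, 0 ≤ φ x := fun x => integral_nonneg fun w => mul_nonneg (hψ0 _) (hθ0 _)
  have hφ1 : ∀ x, φ x ≤ 1 := by
    intro x
    rw [← hθ1]
    exact integral_mono (hint' x) hθi fun w => mul_le_of_le_one_left (hθ0 w) (hψ1 _)
  have hφone : φ 1 = 1 := by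
    rw [← hθ1]
    refine integral_congr_ae (Eventually.of_forall fun w => ?_)
    by_cases hw : θ w = 0
    · simp [hw]
    · simp [hψU w (hθU w hw)]
  have hφs : ∀ x, φ x ≠ 0 → x ∈ U * U * U := by
    intro x hx
    by_contra hxU
    apply hx
    have : (fun w => ψ (x * w) * θ w) = fun _ => 0 := by
      funext w
      by_contra hw
      obtain ⟨h1, h2⟩ := mul_ne_zero_iff.1 hw
      exact hxU ⟨x * w, hψs _ h1, w⁻¹, hUs w (hθU w h2), by simp⟩
    simp only [φ, this, integral_zero]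
  have hφeq : ∀ a x, φ (a * x) = ∫ y, ψ (a * y) * θ (x⁻¹ * y) ∂μ := by
    intro a x
    rw [← integral_mul_left_eq_self (fun y => ψ (a * y) * θ (x⁻¹ * y)) x]
    simp only [φ, mul_assoc, inv_mul_cancel_left]
  have hab : ∀ x y, |φ x - φ y| ≤ 1 := by
    intro x y
    rw [abs_le]
    constructor <;> linarith [hφ0 x, hφ0 y, hφ1 x, hφ1 y]
  have hbdd : ∀ h : G, BddAbove (Set.range fun x => |φ x - φ (h⁻¹ * x)|) := by
    intro h
    refine ⟨1, ?_⟩
    rintro _ ⟨x, rfl⟩
    exact hab _ _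
  have hle : ∀ h x : G, |φ x - φ (h⁻¹ * x)| ≤ ⨆ x, |φ x - φ (h⁻¹ * x)| := fun h x =>
    le_ciSup (hbdd h) x
  have hinv : ∀ h : G, (⨆ x, |φ x - φ (h⁻¹⁻¹ * x)|) ≤ ⨆ x, |φ x - φ (h⁻¹ * x)| := by
    intro h
    refine ciSup_le fun x => ?_
    have := hle h (h * x)
    rw [inv_mul_cancel_left] at this
    rwa [inv_inv, abs_sub_comm]
  refine ⟨fun h => ⨆ x, |φ x - φ (h⁻¹ * x)|, ⟨?_, ?_, ?_, ?_⟩, ?_, ?_⟩
  · intro h
    exact le_trans (abs_nonneg _) (hle h 1)
  · simp
  · intro h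
    refine le_antisymm (hinv h) ?_
    have := hinv h⁻¹
    simp only [inv_inv] at this ⊢
    exact this
  · intro a b
    refine ciSup_le fun x => ?_
    have h1 := hle a x
    have h2 := hle b (a⁻¹ * x)
    rw [mul_inv_rev, mul_assoc]
    have h3 := abs_sub_le (φ x) (φ (a⁻¹ * x)) (φ (b⁻¹ * (a⁻¹ * x)))
    linarith
  · intro h hh
    apply hφs
    intro h0
    have := hle h h
    rw [inv_mul_cancel, hφone, h0] at this
    simp only [zero_sub, abs_neg, abs_one] at this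
    linarith
  · intro h n hn hV
    have hhU : h ∈ U := by
      have := (hV 1 hn).1
      rwa [pow_one] at this
    have hnpos : (0 : ℝ) < n := by exact_mod_cast hn
    have hF : ∀ x, φ x - φ (h⁻¹ * x) = ∫ y, (ψ y - ψ (h⁻¹ * y)) * θ (x⁻¹ * y) ∂μ := by
      intro x
      have h1 := hφeq 1 x
      rw [one_mul] at h1
      rw [h1, hφeq, ← integral_sub (hint _ _) (hint _ _)]
      simp only [one_mul, sub_mul]
    have hFi : ∀ x, Integrable (fun y => (ψ y - ψ (h⁻¹ * y)) * θ (x⁻¹ * y)) μ := by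
      intro x
      have := (hint 1 x⁻¹).sub (hint h⁻¹ x⁻¹)
      refine this.congr (Eventually.of_forall fun y => ?_)
      simp only [Pi.sub_apply, one_mul, sub_mul]
    have hdiff : ∀ i ≤ n, ∀ x, |(φ x - φ (h⁻¹ * x)) -
        (φ ((h ^ i)⁻¹ * x) - φ (h⁻¹ * ((h ^ i)⁻¹ * x)))| ≤ ε * N h := by
      intro i hi x
      rw [hF, hF, ← integral_sub (hFi _) (hFi _),
        ← setIntegral_eq_integral_of_forall_compl_eq_zero (s := L), ← Real.norm_eq_abs]
      · refine le_trans (norm_setIntegral_le_of_norm_le_const (C := N h * ε')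
          hL.measure_lt_top ?_) ?_
        · intro y hy
          rw [← mul_sub, Real.norm_eq_abs, abs_mul]
          refine mul_le_mul (hψl h y) ?_ (abs_nonneg _) (hN.nonneg h)
          have := (hV i hi).2 y hy (x⁻¹ * y)
          have e : x⁻¹ * y * (y⁻¹ * h ^ i * y) = ((h ^ i)⁻¹ * x)⁻¹ * y := by group
          rwa [e] at this
        · rw [mul_assoc, mul_comm ε]
          exact mul_le_mul_of_nonneg_left hε'le (hN.nonneg h)
      · intro y hy
        have h1 : ψ y = 0 := by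
          by_contra hne
          exact hy (hUL ⟨y, hψs y hne, 1, hU1, by simp⟩)
        have h2 : ψ (h⁻¹ * y) = 0 := by
          by_contra hne
          obtain ⟨a, ha, b, hb, hab⟩ := hψs _ hne
          refine hy (hUL ⟨h * a, ⟨h, hhU, a, ha, rfl⟩, b, hb, ?_⟩)
          simp only at hab ⊢
          rw [mul_assoc, hab, mul_inv_cancel_left]
        simp [h1, h2]
    refine ciSup_le fun x => ?_
    have htel : ∀ m ≤ n, |m * (φ x - φ (h⁻¹ * x)) - (φ x - φ ((h ^ m)⁻¹ * x))| ≤ m * (ε * N h) := by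
      intro m
      induction m with
      | zero => simp
      | succ m ih =>
        intro hm
        have h1 := ih (by omega)
        have h2 := hdiff m (by omega) x
        have h3 : (h ^ (m + 1))⁻¹ * x = h⁻¹ * ((h ^ m)⁻¹ * x) := by
          rw [pow_succ, mul_inv_rev, mul_assoc]
        rw [h3]
        push_cast
        rw [abs_le] at h1 h2 ⊢
        constructor <;> linarith [h1.1, h1.2, h2.1, h2.2]
    have h1 := htel n le_rfl
    have h2 := hab x ((h ^ n)⁻¹ * x)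
    have h3 : n * |φ x - φ (h⁻¹ * x)| ≤ 1 + n * (ε * N h) := by
      have : |(n : ℝ) * (φ x - φ (h⁻¹ * x))| ≤ 1 + n * (ε * N h) := by
        rw [abs_le] at h1 h2 ⊢
        constructor <;> linarith [h1.1, h1.2, h2.1, h2.2]
      rwa [abs_mul, abs_of_pos hnpos] at this
    have h4 : (1 : ℝ) / n + ε * N h = (1 + n * (ε * N h)) / n := by
      field_simp
    rw [h4, le_div_iff₀ hnpos]
    linarith

end Pool.Agent.H754Z.TA
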